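import Pool.Agent.Y379.RZ.Path

set_option autoImplicit false

/-!
# The rendezvous constant attains its maximum
-/

namespace Pool.Agent.Y379.RZ

open Set Metric TopologicalSpace

section met

variable {X : Type*} [MetricSpace X]

theorem not_preconn {K : Set X} (hK : IsCompact K) (h : ¬ IsPreconnected K) :
    ∃ δ > 0, ∀ K' : Set X, IsCompact K' → K'.Nonempty → hausdorffDist K K' < δ → ¬ IsPreconnected K' := by
  rw [isPreconnected_closed_iff] at h
  push Not at h
  obtain ⟨t, t', ht, ht', hsub, hA, hB, hAB⟩ := h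
  have hdisj : Disjoint (K ∩ t) (K ∩ t') := by
    rw [Set.disjoint_iff]
    rintro x ⟨⟨hx, hxt⟩, _, hxt'⟩
    have : x ∈ K ∩ (t ∩ t') := ⟨hx, hxt, hxt'⟩
    rw [hAB] at this
    exact this
  have hKne : K.Nonempty := hA.mono inter_subset_left
  obtain ⟨δ, hδ, hd⟩ := hdisj.exists_thickenings (hK.inter_right ht) (hK.inter_right ht').isClosed
  refine ⟨δ, hδ, fun K' hK' hne' hdist hpre => ?_⟩
  have hcl := close_of_hausdorff hK hKne hK' hne' hdist
  have hfin : hausdorffEDist K K' ≠ ⊤ :=
    hausdorffEDist_ne_top_of_nonempty_of_bounded hKne hne' hK.isBounded hK'.isBounded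
  have hcov : K' ⊆ thickening δ (K ∩ t) ∪ thickening δ (K ∩ t') := by
    intro y hy
    obtain ⟨x, hx, hxy⟩ := exists_dist_lt_of_hausdorffDist_lt' hy hdist hfin
    rcases hsub hx with h1 | h1
    · left
      rw [mem_thickening_iff]
      exact ⟨x, ⟨hx, h1⟩, by rwa [dist_comm]⟩
    · right
      rw [mem_thickening_iff]
      exact ⟨x, ⟨hx, h1⟩, by rwa [dist_comm]⟩
  have hmeet : ∀ s : Set X, (K ∩ s).Nonempty → (K' ∩ thickening δ (K ∩ s)).Nonempty := by
    rintro s ⟨a, ha, has⟩
    obtain ⟨y, hy, hay⟩ := exists_dist_lt_of_hausdorffDist_lt ha hdist hfin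
    refine ⟨y, hy, ?_⟩
    rw [mem_thickening_iff]
    exact ⟨a, ⟨ha, has⟩, by rwa [dist_comm]⟩
  obtain ⟨z, _, hz1, hz2⟩ := hpre _ _ isOpen_thickening isOpen_thickening hcov (hmeet t hA) (hmeet t' hB)
  exact Set.disjoint_iff.1 hd ⟨hz1, hz2⟩

theorem max_nc [CompactSpace X] (hS : ∃ K : Set X, IsCompact K ∧ IsConnected K ∧ Metric.diam K = 1) :
    ∃ K : Set X, IsCompact K ∧ IsConnected K ∧ Metric.diam K = 1 ∧
      ∀ K' : Set X, IsCompact K' → IsConnected K' → Metric.diam K' = 1 → rdv K' ≤ rdv K := by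
  let S : Set (NonemptyCompacts X) := {K | IsPreconnected (K : Set X) ∧ Metric.diam (K : Set X) = 1}
  have hdiam : Continuous fun K : NonemptyCompacts X => Metric.diam (K : Set X) := by
    apply LipschitzWith.continuous (K := 2)
    apply LipschitzWith.of_dist_le_mul
    intro K K'
    rw [Real.dist_eq, NonemptyCompacts.dist_eq]
    exact diam_lip K.isCompact K.nonempty K'.isCompact K'.nonempty
  have hrdv : Continuous fun K : NonemptyCompacts X => rdv (K : Set X) := by
    apply LipschitzWith.continuous (K := 2)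
    apply LipschitzWith.of_dist_le_mul
    intro K K'
    rw [Real.dist_eq, NonemptyCompacts.dist_eq]
    exact rdv_lip K.isCompact K.nonempty K'.isCompact K'.nonempty
  have hpre : IsClosed {K : NonemptyCompacts X | IsPreconnected (K : Set X)} := by
    rw [← isOpen_compl_iff, Metric.isOpen_iff]
    intro K hK
    obtain ⟨δ, hδ, h⟩ := not_preconn K.isCompact hK
    refine ⟨δ, hδ, fun K' hK' => h K' K'.isCompact K'.nonempty ?_⟩
    rw [Metric.mem_ball, dist_comm, NonemptyCompacts.dist_eq] at hK'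
    exact hK'
  have hScl : IsClosed S := hpre.inter (isClosed_eq hdiam continuous_const)
  have hSne : S.Nonempty := by
    obtain ⟨K, hK, hc, hd⟩ := hS
    exact ⟨⟨⟨K, hK⟩, hc.nonempty⟩, hc.isPreconnected, hd⟩
  obtain ⟨K, ⟨hK1, hK2⟩, hmax⟩ := hScl.isCompact.exists_isMaxOn hSne hrdv.continuousOn
  refine ⟨K, K.isCompact, ⟨K.nonempty, hK1⟩, hK2, fun K' hK' hc hd => ?_⟩
  exact hmax (show (⟨⟨K', hK'⟩, hc.nonempty⟩ : NonemptyCompacts X) ∈ S from ⟨hc.isPreconnected, hd⟩)

end met

section normed

variable {V : Type*} [NormedAddCommGroup V] [NormedSpace ℝ V] [ProperSpace V]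

theorem normalise {E : Set V} (hE : Cont E) : ∃ K : Set (closedBall (0 : V) 1), IsCompact K ∧ IsConnected K ∧
    Metric.diam K = 1 ∧ rdv K = rc E := by
  obtain ⟨hc, hconn, hnt⟩ := hE
  have hD := diam_pos' hc hnt
  set D := Metric.diam E with hDdef
  obtain ⟨x₀, hx₀⟩ := hnt.nonempty
  let g : V → V := fun x => D⁻¹ • (x - x₀)
  have hgc : Continuous g := by fun_prop
  have hg : ∀ x y, dist (g x) (g y) = D⁻¹ * dist x y := by
    intro x y
    have : g x - g y = D⁻¹ • (x - y) := by simp only [g]; module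
    rw [dist_eq_norm, this, norm_smul, Real.norm_of_nonneg (inv_nonneg.2 hD.le), dist_eq_norm]
  have hg1 : Metric.diam (g '' E) = 1 := by
    rw [diam_image (inv_pos.2 hD) hg hc hgc, ← hDdef, inv_mul_cancel₀ hD.ne']
  have hg2 : rdv (g '' E) = rc E := by
    rw [rdv_image (inv_pos.2 hD) hg hc hnt.nonempty hgc]
    unfold rc
    rw [← hDdef]
    field_simp
  have hsub : g '' E ⊆ closedBall 0 1 := by
    rintro _ ⟨x, hx, rfl⟩
    rw [mem_closedBall]
    have h1 : (0 : V) = g x₀ := by simp [g]
    rw [h1, hg]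
    rw [inv_mul_le_iff₀ hD, mul_one]
    exact Metric.dist_le_diam_of_mem hc.isBounded hx hx₀
  let K : Set (closedBall (0 : V) 1) := Subtype.val ⁻¹' (g '' E)
  have hK : Subtype.val '' K = g '' E := by
    rw [Subtype.image_preimage_coe]
    exact inter_eq_right.2 hsub
  have hKc : IsCompact K := by
    rw [Subtype.isCompact_iff, hK]
    exact hc.image hgc
  have hKconn : IsConnected K := by
    have h1 : IsConnected (Subtype.val '' K) := by
      rw [hK]; exact hconn.image g hgc.continuousOn
    exact ⟨h1.nonempty.of_image, Topology.IsInducing.subtypeVal.isPreconnected_image.1 h1.isPreconnected⟩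
  have hiso : ∀ x y : closedBall (0 : V) 1, dist (x : V) (y : V) = 1 * dist x y := fun x y => by
    rw [one_mul]; rfl
  refine ⟨K, hKc, hKconn, ?_, ?_⟩
  · have := diam_image one_pos hiso hKc continuous_subtype_val
    rw [one_mul] at this
    rw [← this, hK, hg1]
  · have := rdv_image one_pos hiso hKc hKconn.nonempty continuous_subtype_val
    rw [one_mul] at this
    rw [← this, hK, hg2]

/-- the rendezvous constant attains its maximum on the continua of a finite dimensional space -/
theorem exists_max (hV : ∃ E : Set V, Cont E) : ∃ F : Set V, Cont F ∧ ∀ E : Set V, Cont E → rc E ≤ rc F := by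
  have : CompactSpace (closedBall (0 : V) 1) := isCompact_iff_compactSpace.1 (isCompact_closedBall _ _)
  obtain ⟨E₀, hE₀⟩ := hV
  obtain ⟨K₀, h1, h2, h3, _⟩ := normalise hE₀
  obtain ⟨K, hK, hKc, hKd, hmax⟩ := max_nc ⟨K₀, h1, h2, h3⟩
  have hiso : ∀ x y : closedBall (0 : V) 1, dist (x : V) (y : V) = 1 * dist x y := fun x y => by
    rw [one_mul]; rfl
  have hd := diam_image one_pos hiso hK continuous_subtype_val
  have hr := rdv_image one_pos hiso hK hKc.nonempty continuous_subtype_val
  rw [one_mul] at hd hr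
  have hnt : (Subtype.val '' K : Set V).Nontrivial := by
    by_contra h
    rw [Set.not_nontrivial_iff] at h
    have := Metric.diam_subsingleton h
    rw [hd, hKd] at this
    exact one_ne_zero this
  refine ⟨Subtype.val '' K, ⟨hK.image continuous_subtype_val,
    hKc.image _ continuous_subtype_val.continuousOn, hnt⟩, fun E hE => ?_⟩
  obtain ⟨K', g1, g2, g3, g4⟩ := normalise hE
  rw [← g4]
  unfold rc
  rw [hr, hd, hKd, div_one]
  exact hmax K' g1 g2 g3

end normed

end Pool.Agent.Y379.RZ
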