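import Pool.Agent.Y379.RZ.Path

set_option autoImplicit false

/-!
# Continua are limits of connected finite unions of segments
-/

namespace Pool.Agent.Y379.RZ

open Set Metric

section normed

variable {V : Type*} [NormedAddCommGroup V] [NormedSpace ℝ V]

theorem seg_compact' (p q : V) : IsCompact (segment ℝ p q) := by
  rw [segment_eq_image]
  exact isCompact_Icc.image (by fun_prop)

theorem exists_poly {E : Set V} (hE : IsCompact E) (hc : IsConnected E) {ε : ℝ} (hε : 0 < ε) :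
    ∃ S : Finset (V × V), IsCompact (⋃ p ∈ S, segment ℝ p.1 p.2) ∧
      IsConnected (⋃ p ∈ S, segment ℝ p.1 p.2) ∧ Close E (⋃ p ∈ S, segment ℝ p.1 p.2) ε := by
  classical
  obtain ⟨t, htE, htf, hcov⟩ := hE.finite_cover_balls (half_pos hε)
  let S : Finset (V × V) := (htf.toFinset ×ˢ htf.toFinset).filter fun p => dist p.1 p.2 < ε
  have hS : ∀ p q, (p, q) ∈ S ↔ p ∈ t ∧ q ∈ t ∧ dist p q < ε := by
    intro p q
    simp only [S, Finset.mem_filter, Finset.mem_product, Set.Finite.mem_toFinset, and_assoc]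
  let G : Set V := ⋃ p ∈ S, segment ℝ p.1 p.2
  have hseg : ∀ p q, p ∈ t → q ∈ t → dist p q < ε → segment ℝ p q ⊆ G := by
    intro p q hp hq hd x hx
    exact mem_iUnion₂.2 ⟨(p, q), (hS p q).2 ⟨hp, hq, hd⟩, hx⟩
  have hG : ∀ x ∈ G, ∃ p ∈ t, ∃ q ∈ t, dist p q < ε ∧ x ∈ segment ℝ p q := by
    intro x hx
    obtain ⟨⟨p, q⟩, hpq, hx⟩ := mem_iUnion₂.1 hx
    obtain ⟨hp, hq, hd⟩ := (hS p q).1 hpq
    exact ⟨p, hp, q, hq, hd, hx⟩
  have htG : ∀ p ∈ t, p ∈ G := fun p hp =>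
    hseg p p hp hp (by rw [dist_self]; exact hε) (left_mem_segment ℝ p p)
  obtain ⟨z, hz⟩ := hc.nonempty
  obtain ⟨p₀, hp₀, hzp⟩ := mem_iUnion₂.1 (hcov hz)
  let C := connectedComponentIn G p₀
  have hstep : ∀ p ∈ C, ∀ q, p ∈ t → q ∈ t → dist p q < ε → segment ℝ p q ⊆ C := by
    intro p hp q hpt hqt hd
    have h1 : C = connectedComponentIn G p := connectedComponentIn_eq hp
    rw [h1]
    exact (convex_segment (𝕜 := ℝ) p q).isPreconnected.subset_connectedComponentIn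
      (left_mem_segment ℝ p q) (hseg p q hpt hqt hd)
  have hall : ∀ q ∈ t, q ∈ C := by
    by_contra hcon
    push Not at hcon
    obtain ⟨q, hq, hqC⟩ := hcon
    let U₁ : Set V := ⋃ p ∈ {p | p ∈ t ∧ p ∈ C}, ball p (ε / 2)
    let U₂ : Set V := ⋃ p ∈ {p | p ∈ t ∧ p ∉ C}, ball p (ε / 2)
    have o₁ : IsOpen U₁ := isOpen_biUnion fun _ _ => isOpen_ball
    have o₂ : IsOpen U₂ := isOpen_biUnion fun _ _ => isOpen_ball
    have hcov' : E ⊆ U₁ ∪ U₂ := by
      intro x hx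
      obtain ⟨p, hp, hxp⟩ := mem_iUnion₂.1 (hcov hx)
      by_cases hpC : p ∈ C
      · exact Or.inl (mem_iUnion₂.2 ⟨p, ⟨hp, hpC⟩, hxp⟩)
      · exact Or.inr (mem_iUnion₂.2 ⟨p, ⟨hp, hpC⟩, hxp⟩)
    have hp₀C : p₀ ∈ C := mem_connectedComponentIn (htG p₀ hp₀)
    have n₁ : (E ∩ U₁).Nonempty :=
      ⟨p₀, htE hp₀, mem_iUnion₂.2 ⟨p₀, ⟨hp₀, hp₀C⟩, mem_ball_self (half_pos hε)⟩⟩
    have n₂ : (E ∩ U₂).Nonempty :=
      ⟨q, htE hq, mem_iUnion₂.2 ⟨q, ⟨hq, hqC⟩, mem_ball_self (half_pos hε)⟩⟩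
    obtain ⟨x, _, hx₁, hx₂⟩ := hc.isPreconnected U₁ U₂ o₁ o₂ hcov' n₁ n₂
    obtain ⟨p, ⟨hp, hpC⟩, hxp⟩ := mem_iUnion₂.1 hx₁
    obtain ⟨r, ⟨hr, hrC⟩, hxr⟩ := mem_iUnion₂.1 hx₂
    have hd : dist p r < ε := by
      have := dist_triangle p x r
      rw [mem_ball] at hxp hxr
      rw [dist_comm] at hxp
      linarith
    exact hrC (hstep p hpC r hp hr hd (right_mem_segment ℝ p r))
  have hGC : G ⊆ C := by
    intro x hx
    obtain ⟨p, hp, q, hq, hd, hx⟩ := hG x hx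
    exact hstep p (hall p hp) q hp hq hd hx
  have hCG : C = G := (connectedComponentIn_subset G p₀).antisymm hGC
  refine ⟨S, ?_, ⟨⟨p₀, htG p₀ hp₀⟩, ?_⟩, ?_, ?_⟩
  · exact Finset.isCompact_biUnion S fun p _ => seg_compact' p.1 p.2
  · change IsPreconnected G
    rw [← hCG]
    exact isPreconnected_connectedComponentIn
  · intro x hx
    obtain ⟨p, hp, hxp⟩ := mem_iUnion₂.1 (hcov hx)
    refine ⟨p, htG p hp, ?_⟩
    rw [mem_ball] at hxp
    linarith
  · intro y hy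
    obtain ⟨p, hp, q, hq, hd, hy⟩ := hG y hy
    refine ⟨p, htE hp, ?_⟩
    have := dist_add_dist_of_mem_segment hy
    have h2 : 0 ≤ dist y q := dist_nonneg
    linarith

/-- `c < rc` is an open condition -/
theorem open_close {E : Set V} (hE : Cont E) {c : ℝ} (h : c < rc E) :
    ∃ ε > 0, ∀ F : Set V, IsCompact F → IsConnected F → Close E F ε → Cont F ∧ c < rc F := by
  obtain ⟨hc, hconn, hnt⟩ := hE
  have hD := diam_pos' hc hnt
  unfold rc at h
  rw [lt_div_iff₀ hD] at h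
  set η := rdv E - c * Metric.diam E with hη
  have hη0 : 0 < η := by rw [hη]; linarith
  let ε : ℝ := min (η / (4 * (1 + |c|))) (Metric.diam E / 4)
  have hε : 0 < ε := lt_min (by positivity) (by positivity)
  refine ⟨ε, hε, fun F hF hFc hcl => ?_⟩
  have e1 : ε ≤ η / (4 * (1 + |c|)) := min_le_left _ _
  have e2 : ε ≤ Metric.diam E / 4 := min_le_right _ _
  have d1 := diam_close hF hnt.nonempty hcl
  have d2 := diam_close hc hFc.nonempty hcl.symm
  have r1 := rdv_close hc hnt.nonempty hF hFc.nonempty hcl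
  have hDF : 0 < Metric.diam F := by linarith
  have hFnt : F.Nontrivial := by
    by_contra hcon
    rw [Set.not_nontrivial_iff] at hcon
    have := Metric.diam_subsingleton hcon
    linarith
  refine ⟨⟨hF, hFc, hFnt⟩, ?_⟩
  unfold rc
  rw [lt_div_iff₀ hDF]
  have h3 : c * Metric.diam F ≤ c * Metric.diam E + |c| * (2 * ε) := by
    have : c * (Metric.diam F - Metric.diam E) ≤ |c| * |Metric.diam F - Metric.diam E| := by
      rw [← abs_mul]; exact le_abs_self _
    have h4 : |Metric.diam F - Metric.diam E| ≤ 2 * ε := by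
      rw [abs_sub_le_iff]; constructor <;> linarith
    have h5 := mul_le_mul_of_nonneg_left h4 (abs_nonneg c)
    linarith
  rw [le_div_iff₀ (by positivity)] at e1
  nlinarith [abs_nonneg c]

/-- `c < rc` is an open condition in the Hausdorff distance -/
theorem open_near {E : Set V} (hE : Cont E) {c : ℝ} (h : c < rc E) :
    ∃ ε > 0, ∀ F : Set V, Cont F → hausdorffDist E F < ε → c < rc F := by
  obtain ⟨ε, hε, h⟩ := open_close hE h
  exact ⟨ε, hε, fun F hF hd => (h F hF.1 hF.2.1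
    (close_of_hausdorff hE.1 hE.2.2.nonempty hF.1 hF.2.2.nonempty hd)).2⟩

/-- connected finite unions of segments approximate the constant from below -/
theorem poly_above {E : Set V} (hE : Cont E) {c : ℝ} (h : c < rc E) :
    ∃ S : Finset (V × V), Cont (⋃ p ∈ S, segment ℝ p.1 p.2) ∧ c < rc (⋃ p ∈ S, segment ℝ p.1 p.2) := by
  obtain ⟨ε, hε, h⟩ := open_close hE h
  obtain ⟨S, h1, h2, h3⟩ := exists_poly hE.1 hE.2.1 hε
  exact ⟨S, h _ h1 h2 h3⟩

end normed

end Pool.Agent.Y379.RZ
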