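import Mathlib

set_option autoImplicit false

/-!
# The rendezvous number is Lipschitz continuous in the Hausdorff distance
-/

namespace Pool.Agent.Y379.RZ

open Set Metric

section gen

variable {X Y : Type*} [PseudoMetricSpace X] [PseudoMetricSpace Y]

/-- the rendezvous number -/
noncomputable def rdv (E : Set X) : ℝ :=
  sSup {r : ℝ | ∃ (n : ℕ) (x : Fin n → X), 1 ≤ n ∧ (∀ i, x i ∈ E) ∧
    IsLeast {s : ℝ | ∃ y ∈ E, s = (1 / (n : ℝ)) * ∑ i, dist (x i) y} r}

/-- the mean distance -/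
noncomputable def mean {n : ℕ} (x : Fin n → X) (y : X) : ℝ := (1 / (n : ℝ)) * ∑ i, dist (x i) y

theorem mean_cont {n : ℕ} (x : Fin n → X) : Continuous (mean x) := by
  unfold mean
  fun_prop

theorem mean_le {n : ℕ} {x x' : Fin n → X} {y y' : X} {c : ℝ} (hn : 1 ≤ n)
    (h : ∀ i, dist (x i) y ≤ dist (x' i) y' + c) : mean x y ≤ mean x' y' + c := by
  unfold mean
  have hn' : (0 : ℝ) < n := by exact_mod_cast hn
  have h1 : ∑ i, dist (x i) y ≤ ∑ i, dist (x' i) y' + n * c := by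
    calc ∑ i, dist (x i) y ≤ ∑ i, (dist (x' i) y' + c) := Finset.sum_le_sum fun i _ => h i
      _ = ∑ i, dist (x' i) y' + n * c := by
        rw [Finset.sum_add_distrib]; simp
  calc (1 / (n : ℝ)) * ∑ i, dist (x i) y ≤ (1 / (n : ℝ)) * (∑ i, dist (x' i) y' + n * c) :=
        mul_le_mul_of_nonneg_left h1 (by positivity)
    _ = (1 / (n : ℝ)) * ∑ i, dist (x' i) y' + c := by field_simp

theorem mean_le_const {n : ℕ} {x : Fin n → X} {y : X} {c : ℝ} (hn : 1 ≤ n)
    (h : ∀ i, dist (x i) y ≤ c) : mean x y ≤ c := by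
  have := mean_le (x := x) (x' := fun _ => y) (y := y) (y' := y) (c := c) hn (fun i => by simpa using h i)
  unfold mean at this ⊢
  simpa using this

theorem isLeast_min {E : Set X} (hE : IsCompact E) (hne : E.Nonempty) {n : ℕ} (x : Fin n → X) :
    ∃ y ∈ E, (∀ z ∈ E, mean x y ≤ mean x z) ∧
      IsLeast {s : ℝ | ∃ y ∈ E, s = (1 / (n : ℝ)) * ∑ i, dist (x i) y} (mean x y) := by
  obtain ⟨y, hy, hmin⟩ := hE.exists_isMinOn hne (mean_cont x).continuousOn
  refine ⟨y, hy, fun z hz => hmin hz, ⟨y, hy, rfl⟩, ?_⟩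
  rintro s ⟨z, hz, rfl⟩
  exact hmin hz

theorem bdd {E : Set X} (hE : IsCompact E) : BddAbove {r : ℝ | ∃ (n : ℕ) (x : Fin n → X), 1 ≤ n ∧ (∀ i, x i ∈ E) ∧
    IsLeast {s : ℝ | ∃ y ∈ E, s = (1 / (n : ℝ)) * ∑ i, dist (x i) y} r} := by
  refine ⟨Metric.diam E, ?_⟩
  rintro r ⟨n, x, hn, hx, ⟨y, hy, rfl⟩, _⟩
  exact mean_le_const hn fun i => Metric.dist_le_diam_of_mem hE.isBounded (hx i) hy

theorem le_rdv {E : Set X} (hE : IsCompact E) (hne : E.Nonempty) {n : ℕ} (hn : 1 ≤ n) {x : Fin n → X}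
    (hx : ∀ i, x i ∈ E) {c : ℝ} (h : ∀ y ∈ E, c ≤ mean x y) : c ≤ rdv E := by
  obtain ⟨y, hy, _, hl⟩ := isLeast_min hE hne x
  exact (h y hy).trans (le_csSup (bdd hE) ⟨n, x, hn, hx, hl⟩)

theorem rdv_le {E : Set X} (hE : IsCompact E) (hne : E.Nonempty) {c : ℝ}
    (h : ∀ (n : ℕ) (x : Fin n → X), 1 ≤ n → (∀ i, x i ∈ E) → ∃ y ∈ E, mean x y ≤ c) : rdv E ≤ c := by
  obtain ⟨z, hz⟩ := hne
  apply csSup_le
  · obtain ⟨y, hy, _, hl⟩ := isLeast_min hE ⟨z, hz⟩ (fun _ : Fin 1 => z)
    exact ⟨_, 1, _, le_rfl, fun _ => hz, hl⟩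
  · rintro r ⟨n, x, hn, hx, hl⟩
    obtain ⟨y, hy, hc⟩ := h n x hn hx
    exact (hl.2 ⟨y, hy, rfl⟩).trans hc

theorem exists_of_lt {E : Set X} (hE : IsCompact E) (hne : E.Nonempty) {c : ℝ} (h : c < rdv E) :
    ∃ (n : ℕ) (x : Fin n → X), 1 ≤ n ∧ (∀ i, x i ∈ E) ∧ ∀ y ∈ E, c ≤ mean x y := by
  by_contra hcon
  push Not at hcon
  have := rdv_le hE hne (c := c) fun n x hn hx => by
    obtain ⟨y, hy, hlt⟩ := hcon n x hn hx
    exact ⟨y, hy, hlt.le⟩
  linarith

/-- closeness up to `δ` -/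
def Close (E E' : Set X) (δ : ℝ) : Prop :=
  (∀ x ∈ E, ∃ y ∈ E', dist x y ≤ δ) ∧ (∀ y ∈ E', ∃ x ∈ E, dist x y ≤ δ)

theorem Close.symm {E E' : Set X} {δ : ℝ} (h : Close E E' δ) : Close E' E δ :=
  ⟨fun y hy => by obtain ⟨x, hx, hd⟩ := h.2 y hy; exact ⟨x, hx, by rwa [dist_comm]⟩,
    fun x hx => by obtain ⟨y, hy, hd⟩ := h.1 x hx; exact ⟨y, hy, by rwa [dist_comm]⟩⟩

theorem rdv_close {E E' : Set X} (hE : IsCompact E) (hne : E.Nonempty) (hE' : IsCompact E')
    (hne' : E'.Nonempty) {δ : ℝ} (h : Close E E' δ) : rdv E ≤ rdv E' + 2 * δ := by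
  apply le_of_forall_lt
  intro c hc
  obtain ⟨c', hc', hc''⟩ := exists_between hc
  obtain ⟨n, x, hn, hx, hy⟩ := exists_of_lt hE hne hc''
  choose x' hx' hd using fun i => h.1 (x i) (hx i)
  have h2 : c' - 2 * δ ≤ rdv E' := by
    apply le_rdv hE' hne' hn hx'
    intro y' hy'
    obtain ⟨y, hyE, hdy⟩ := h.2 y' hy'
    have := mean_le (x := x) (x' := x') (y := y) (y' := y') (c := 2 * δ) hn fun i => by
      have t1 := dist_triangle (x i) (x' i) y
      have t2 := dist_triangle (x' i) y' y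
      rw [dist_comm y' y] at t2
      have := hd i
      linarith
    have := hy y hyE
    linarith
  linarith

theorem diam_close {E E' : Set X} (hE' : IsCompact E') (hne : E.Nonempty)
    {δ : ℝ} (h : Close E E' δ) : Metric.diam E ≤ Metric.diam E' + 2 * δ := by
  obtain ⟨z, hz⟩ := hne
  have hδ : 0 ≤ δ := by
    obtain ⟨y, _, hd⟩ := h.1 z hz
    exact dist_nonneg.trans hd
  apply Metric.diam_le_of_forall_dist_le (by have := Metric.diam_nonneg (s := E'); linarith)
  intro x hx y hy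
  obtain ⟨x', hx', hdx⟩ := h.1 x hx
  obtain ⟨y', hy', hdy⟩ := h.1 y hy
  have h1 := Metric.dist_le_diam_of_mem hE'.isBounded hx' hy'
  have t1 := dist_triangle x x' y
  have t2 := dist_triangle x' y' y
  rw [dist_comm y' y] at t2
  linarith

theorem close_of_hausdorff {E E' : Set X} (hE : IsCompact E) (hne : E.Nonempty) (hE' : IsCompact E')
    (hne' : E'.Nonempty) {δ : ℝ} (h : hausdorffDist E E' < δ) : Close E E' δ := by
  have hfin : hausdorffEDist E E' ≠ ⊤ :=
    hausdorffEDist_ne_top_of_nonempty_of_bounded hne hne' hE.isBounded hE'.isBounded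
  constructor
  · intro x hx
    obtain ⟨y, hy, hd⟩ := exists_dist_lt_of_hausdorffDist_lt hx h hfin
    exact ⟨y, hy, hd.le⟩
  · intro y hy
    obtain ⟨x, hx, hd⟩ := exists_dist_lt_of_hausdorffDist_lt' hy h hfin
    exact ⟨x, hx, hd.le⟩

theorem rdv_lip {E E' : Set X} (hE : IsCompact E) (hne : E.Nonempty) (hE' : IsCompact E')
    (hne' : E'.Nonempty) : |rdv E - rdv E'| ≤ 2 * hausdorffDist E E' := by
  rw [abs_sub_le_iff]
  constructor
  · apply le_of_forall_pos_le_add
    intro ε hε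
    have := rdv_close hE hne hE' hne' (close_of_hausdorff hE hne hE' hne'
      (δ := hausdorffDist E E' + ε / 2) (by linarith))
    linarith
  · apply le_of_forall_pos_le_add
    intro ε hε
    have := rdv_close hE' hne' hE hne (close_of_hausdorff hE hne hE' hne'
      (δ := hausdorffDist E E' + ε / 2) (by linarith)).symm
    linarith

theorem diam_lip {E E' : Set X} (hE : IsCompact E) (hne : E.Nonempty) (hE' : IsCompact E')
    (hne' : E'.Nonempty) : |Metric.diam E - Metric.diam E'| ≤ 2 * hausdorffDist E E' := by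
  rw [abs_sub_le_iff]
  constructor
  · apply le_of_forall_pos_le_add
    intro ε hε
    have := diam_close hE' hne (close_of_hausdorff hE hne hE' hne'
      (δ := hausdorffDist E E' + ε / 2) (by linarith))
    linarith
  · apply le_of_forall_pos_le_add
    intro ε hε
    have := diam_close hE hne' (close_of_hausdorff hE hne hE' hne'
      (δ := hausdorffDist E E' + ε / 2) (by linarith)).symm
    linarith

/-- a lower bound -/
theorem diam_le_two {E : Set X} (hE : IsCompact E) (hne : E.Nonempty) : Metric.diam E ≤ 2 * rdv E := by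
  have h0 : 0 ≤ rdv E := by
    obtain ⟨z, hz⟩ := hne
    refine le_rdv hE ⟨z, hz⟩ (n := 1) le_rfl (x := fun _ => z) (fun _ => hz) fun y _ => ?_
    unfold mean
    positivity
  apply Metric.diam_le_of_forall_dist_le (by linarith)
  intro u hu v hv
  have : dist u v / 2 ≤ rdv E := by
    refine le_rdv hE hne (n := 2) (by norm_num) (x := ![u, v]) (fun i => ?_) fun y _ => ?_
    · fin_cases i
      · exact hu
      · exact hv
    · unfold mean
      rw [Fin.sum_univ_two]
      simp only [Matrix.cons_val_zero, Matrix.cons_val_one]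
      have := dist_triangle u y v
      rw [dist_comm y v] at this
      push_cast
      linarith
  linarith

theorem rdv_le_diam {E : Set X} (hE : IsCompact E) (hne : E.Nonempty) : rdv E ≤ Metric.diam E := by
  apply rdv_le hE hne
  intro n x hn hx
  obtain ⟨y, hy⟩ := hne
  exact ⟨y, hy, mean_le_const hn fun i => Metric.dist_le_diam_of_mem hE.isBounded (hx i) hy⟩

/-- behaviour under similarities -/
theorem rdv_image {f : X → Y} {s : ℝ} (hs : 0 < s) (hf : ∀ x y, dist (f x) (f y) = s * dist x y)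
    {E : Set X} (hE : IsCompact E) (hne : E.Nonempty) (hfc : Continuous f) : rdv (f '' E) = s * rdv E := by
  have hm : ∀ (n : ℕ) (x : Fin n → X) (y : X), mean (fun i => f (x i)) (f y) = s * mean x y := by
    intro n x y
    unfold mean
    simp only [hf, ← Finset.mul_sum]
    ring
  apply le_antisymm
  · apply rdv_le (hE.image hfc) (hne.image f)
    intro n x hn hx
    choose x' hx' hxx' using hx
    obtain rfl : (fun i => f (x' i)) = x := funext hxx'
    obtain ⟨y, hy, hmin, _⟩ := isLeast_min hE hne x'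
    refine ⟨f y, ⟨y, hy, rfl⟩, ?_⟩
    rw [hm]
    apply mul_le_mul_of_nonneg_left _ hs.le
    exact le_rdv hE hne hn hx' fun z hz => hmin z hz
  · rw [mul_comm, ← le_div_iff₀ hs]
    apply rdv_le hE hne
    intro n x hn hx
    obtain ⟨y, hy, hmin, _⟩ := isLeast_min hE hne x
    refine ⟨y, hy, ?_⟩
    rw [le_div_iff₀ hs, mul_comm, ← hm]
    apply le_rdv (hE.image hfc) (hne.image f) hn (fun i => ⟨x i, hx i, rfl⟩)
    rintro _ ⟨z, hz, rfl⟩
    rw [hm, hm]
    exact mul_le_mul_of_nonneg_left (hmin z hz) hs.le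

theorem diam_image {f : X → Y} {s : ℝ} (hs : 0 < s) (hf : ∀ x y, dist (f x) (f y) = s * dist x y)
    {E : Set X} (hE : IsCompact E) (hfc : Continuous f) : Metric.diam (f '' E) = s * Metric.diam E := by
  apply le_antisymm
  · apply Metric.diam_le_of_forall_dist_le (mul_nonneg hs.le Metric.diam_nonneg)
    rintro _ ⟨x, hx, rfl⟩ _ ⟨y, hy, rfl⟩
    rw [hf]
    exact mul_le_mul_of_nonneg_left (Metric.dist_le_diam_of_mem hE.isBounded hx hy) hs.le
  · rw [mul_comm, ← le_div_iff₀ hs]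
    apply Metric.diam_le_of_forall_dist_le (div_nonneg Metric.diam_nonneg hs.le)
    intro x hx y hy
    have h1 := Metric.dist_le_diam_of_mem (hE.image hfc).isBounded (mem_image_of_mem f hx)
      (mem_image_of_mem f hy)
    rw [hf] at h1
    rw [le_div_iff₀ hs, mul_comm]
    exact h1

end gen

end Pool.Agent.Y379.RZ
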