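import Pool.Agent.Y379.RZ.Lip

set_option autoImplicit false

/-!
# The values of the rendezvous constant of continua form an interval
-/

namespace Pool.Agent.Y379.RZ

open Set Metric

/-- the rendezvous constant -/
noncomputable def rc {X : Type*} [PseudoMetricSpace X] (E : Set X) : ℝ := rdv E / Metric.diam E

/-- a continuum with more than one point -/
def Cont {X : Type*} [TopologicalSpace X] (E : Set X) : Prop := IsCompact E ∧ IsConnected E ∧ E.Nontrivial

theorem diam_pos' {X : Type*} [MetricSpace X] {E : Set X} (hE : IsCompact E) (hnt : E.Nontrivial) :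
    0 < Metric.diam E := by
  obtain ⟨x, hx, y, hy, hne⟩ := hnt
  exact (dist_pos.2 hne).trans_le (Metric.dist_le_diam_of_mem hE.isBounded hx hy)

theorem half_le {X : Type*} [MetricSpace X] {E : Set X} (hE : IsCompact E) (hnt : E.Nontrivial) :
    1 / 2 ≤ rc E := by
  unfold rc
  rw [le_div_iff₀ (diam_pos' hE hnt)]
  have := diam_le_two hE hnt.nonempty
  linarith

theorem rc_le_one {X : Type*} [MetricSpace X] {E : Set X} (hE : IsCompact E) (hnt : E.Nontrivial) :
    rc E ≤ 1 := by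
  unfold rc
  rw [div_le_one (diam_pos' hE hnt)]
  exact rdv_le_diam hE hnt.nonempty

section normed

variable {V : Type*} [NormedAddCommGroup V] [NormedSpace ℝ V]

theorem segment_rc {e : V} (he : e ≠ 0) : rc (segment ℝ (0 : V) e) = 1 / 2 := by
  have hc : IsCompact (segment ℝ (0 : V) e) := by
    rw [segment_eq_image]
    exact isCompact_Icc.image (by fun_prop)
  have h0 : (0 : V) ∈ segment ℝ (0 : V) e := left_mem_segment ℝ _ _
  have h1 : e ∈ segment ℝ (0 : V) e := right_mem_segment ℝ _ _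
  have hnt : (segment ℝ (0 : V) e).Nontrivial := ⟨0, h0, e, h1, he.symm⟩
  apply le_antisymm _ (half_le hc hnt)
  unfold rc
  rw [div_le_iff₀ (diam_pos' hc hnt)]
  have hd : dist (0 : V) e ≤ Metric.diam (segment ℝ (0 : V) e) :=
    Metric.dist_le_diam_of_mem hc.isBounded h0 h1
  have hr : rdv (segment ℝ (0 : V) e) ≤ dist (0 : V) e / 2 := by
    apply rdv_le hc ⟨0, h0⟩
    intro n x hn hx
    have hn' : (0 : ℝ) < n := by exact_mod_cast hn
    have hsum : mean x 0 + mean x e = dist (0 : V) e := by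
      unfold mean
      rw [← mul_add, ← Finset.sum_add_distrib]
      have : ∀ i, dist (x i) 0 + dist (x i) e = dist (0 : V) e := fun i => by
        rw [dist_comm (x i) 0]
        exact dist_add_dist_of_mem_segment (hx i)
      simp only [this]
      rw [Finset.sum_const, Finset.card_univ, Fintype.card_fin, nsmul_eq_mul]
      field_simp
    by_cases h : mean x 0 ≤ dist (0 : V) e / 2
    · exact ⟨0, h0, h⟩
    · exact ⟨e, h1, by linarith⟩
  linarith

/-- the continua between `E` and a segment -/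
def P (E : Set V) (e : V) (t : ℝ) : Set V :=
  (fun z : V × V => (1 - t) • z.1 + t • z.2) '' (E ×ˢ segment ℝ (0 : V) e)

theorem seg_compact (e : V) : IsCompact (segment ℝ (0 : V) e) := by
  rw [segment_eq_image]
  exact isCompact_Icc.image (by fun_prop)

theorem P_compact {E : Set V} (hE : IsCompact E) (e : V) (t : ℝ) : IsCompact (P E e t) :=
  (hE.prod (seg_compact e)).image (by fun_prop)

theorem P_conn {E : Set V} (hE : IsConnected E) (e : V) (t : ℝ) : IsConnected (P E e t) := by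
  apply (hE.prod ⟨⟨0, left_mem_segment ℝ _ _⟩, (convex_segment (𝕜 := ℝ) (0 : V) e).isPreconnected⟩).image
  apply Continuous.continuousOn
  fun_prop

theorem P_zero {E : Set V} (e : V) : P E e 0 = E := by
  ext x
  constructor
  · rintro ⟨⟨a, b⟩, ⟨ha, _⟩, rfl⟩
    simpa using ha
  · intro hx
    exact ⟨(x, 0), ⟨hx, left_mem_segment ℝ _ _⟩, by simp⟩

theorem P_one {E : Set V} (hne : E.Nonempty) (e : V) : P E e 1 = segment ℝ (0 : V) e := by
  obtain ⟨z, hz⟩ := hne
  ext x
  constructor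
  · rintro ⟨⟨a, b⟩, ⟨_, hb⟩, rfl⟩
    simpa using hb
  · intro hx
    exact ⟨(z, x), ⟨hz, hx⟩, by simp⟩

theorem P_nt {E : Set V} (hE : E.Nontrivial) {e : V} (he : e ≠ 0) (t : ℝ) : (P E e t).Nontrivial := by
  by_cases ht : t = 0
  · rw [ht, P_zero]; exact hE
  · obtain ⟨z, hz⟩ := hE.nonempty
    refine ⟨_, ⟨(z, 0), ⟨hz, left_mem_segment ℝ _ _⟩, rfl⟩, _, ⟨(z, e), ⟨hz, right_mem_segment ℝ _ _⟩, rfl⟩, ?_⟩
    intro h
    simp only [add_right_inj, smul_zero] at h
    exact (smul_ne_zero ht he) h.symm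

theorem P_close {E : Set V} {M : ℝ} (hM : ∀ x ∈ E, ‖x‖ ≤ M) (e : V) (t t' : ℝ) :
    Close (P E e t) (P E e t') (|t - t'| * (M + ‖e‖)) := by
  have hs : ∀ s ∈ segment ℝ (0 : V) e, ‖s‖ ≤ ‖e‖ := by
    intro s hs
    obtain ⟨a, b, ha, hb, hab, rfl⟩ := hs
    rw [smul_zero, zero_add, norm_smul, Real.norm_of_nonneg hb]
    have : b ≤ 1 := by linarith
    nlinarith [norm_nonneg e]
  have key : ∀ x ∈ E, ∀ s ∈ segment ℝ (0 : V) e,
      dist ((1 - t) • x + t • s) ((1 - t') • x + t' • s) ≤ |t - t'| * (M + ‖e‖) := by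
    intro x hx s hs'
    have e1 : ((1 - t) • x + t • s) - ((1 - t') • x + t' • s) = (t - t') • (s - x) := by module
    rw [dist_eq_norm, e1, norm_smul, Real.norm_eq_abs]
    apply mul_le_mul_of_nonneg_left _ (abs_nonneg _)
    have := norm_sub_le s x
    have := hM x hx
    have := hs s hs'
    linarith
  constructor
  · rintro _ ⟨⟨x, s⟩, ⟨hx, hs'⟩, rfl⟩
    exact ⟨_, ⟨(x, s), ⟨hx, hs'⟩, rfl⟩, key x hx s hs'⟩
  · rintro _ ⟨⟨x, s⟩, ⟨hx, hs'⟩, rfl⟩
    exact ⟨_, ⟨(x, s), ⟨hx, hs'⟩, rfl⟩, key x hx s hs'⟩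

theorem cont_of_lip {f : ℝ → ℝ} {C : ℝ} (hC : 0 ≤ C) (h : ∀ t t', f t ≤ f t' + C * |t - t'|) :
    Continuous f := by
  apply LipschitzWith.continuous (K := ⟨C, hC⟩)
  apply LipschitzWith.of_dist_le_mul
  intro x y
  rw [Real.dist_eq, Real.dist_eq, abs_sub_le_iff]
  have h1 := h x y
  have h2 := h y x
  rw [abs_sub_comm y x] at h2
  change _ ≤ C * _ ∧ _ ≤ C * _
  constructor <;> linarith

theorem P_cont {E : Set V} (hE : Cont E) {e : V} (he : e ≠ 0) : Continuous fun t => rc (P E e t) := by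
  obtain ⟨hc, hconn, hnt⟩ := hE
  obtain ⟨M, hM⟩ := hc.isBounded.exists_norm_le
  have hne := hnt.nonempty
  have hM0 : 0 ≤ M := by
    obtain ⟨z, hz⟩ := hne
    exact (norm_nonneg z).trans (hM z hz)
  have hC : 0 ≤ 2 * (M + ‖e‖) := by positivity
  have hne' : ∀ t, (P E e t).Nonempty := fun t => (P_nt hnt he t).nonempty
  apply Continuous.div
  · apply cont_of_lip hC
    intro t t'
    have := rdv_close (P_compact hc e t) (hne' t) (P_compact hc e t') (hne' t') (P_close hM e t t')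
    linarith
  · apply cont_of_lip hC
    intro t t'
    have := diam_close (P_compact hc e t') (hne' t) (P_close hM e t t')
    linarith
  · intro t
    exact (diam_pos' (P_compact hc e t) (P_nt hnt he t)).ne'

/-- every value between `1/2` and the value of a continuum is a value -/
theorem between {E : Set V} (hE : Cont E) {v : ℝ} (h1 : 1 / 2 ≤ v) (h2 : v ≤ rc E) :
    ∃ F : Set V, Cont F ∧ rc F = v := by
  obtain ⟨x, hx, y, hy, hxy⟩ := hE.2.2
  have he : y - x ≠ 0 := sub_ne_zero.2 hxy.symm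
  have hcont := P_cont hE he
  have hivt := intermediate_value_Icc' (zero_le_one' ℝ) hcont.continuousOn
  rw [P_zero, P_one ⟨x, hx⟩, segment_rc he] at hivt
  obtain ⟨t, _, ht⟩ := hivt ⟨h1, h2⟩
  exact ⟨_, ⟨P_compact hE.1 _ t, P_conn hE.2.1 _ t, P_nt hE.2.2 he t⟩, ht⟩

end normed

end Pool.Agent.Y379.RZ
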